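import Pool.Agent.Q72.AL.Stm

/-!
# Job FE of project AL (helper72), by helper68: the functional equation
-/

set_option autoImplicit false

open Complex MeasureTheory Filter Topology Set
open H345 (Zo aa XX)

namespace Pool.Agent.Q68.AL

open Pool.Agent.Q72.AL

/-- the local form of the functional equation for all differences -/
theorem xx_all : ∃ C T0 : ℝ, 0 < C ∧ 1 ≤ T0 ∧ ∀ T : ℝ, T0 ≤ T → ∀ τ : ℝ,
    ‖XX (1 / 2 + ((T + τ : ℝ) : ℂ) * I) -
      XX (1 / 2 + (T : ℂ) * I) * cexp (((τ * Real.log (T / (2 * Real.pi)) : ℝ) : ℂ) * I)‖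
      ≤ C / T * (1 + τ ^ 2) := by
  obtain ⟨C, T0, hC, hT0, h⟩ := H345.XX_local
  refine ⟨C + 8, T0, by linarith, by linarith, fun T hT τ => ?_⟩
  have hT1 : 0 < T := by linarith
  rcases le_or_gt |τ| (T / 2) with hτ | hτ
  · refine (h T hT τ hτ).trans ?_
    rw [mul_div_right_comm]
    gcongr
    linarith
  · have h1 : ‖XX (1 / 2 + ((T + τ : ℝ) : ℂ) * I) -
      XX (1 / 2 + (T : ℂ) * I) * cexp (((τ * Real.log (T / (2 * Real.pi)) : ℝ) : ℂ) * I)‖ ≤ 2 := by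
      refine (norm_sub_le _ _).trans ?_
      rw [norm_mul, H345.norm_XX_half, H345.norm_XX_half, Complex.norm_exp_ofReal_mul_I]
      norm_num
    refine h1.trans ?_
    rw [div_mul_eq_mul_div, le_div_iff₀ hT1]
    have h2 : (T / 2) ^ 2 ≤ τ ^ 2 := by
      rw [← sq_abs τ]
      exact pow_le_pow_left₀ (by linarith) hτ.le 2
    have h3 : 2 * T ≤ 8 * (1 + τ ^ 2) := by nlinarith
    have h4 : 0 ≤ C * (1 + τ ^ 2) := by positivity
    linarith

/-- JOB FE of project AL: the functional equation -/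
theorem fe (h : J_CONJ) : J_FE := by
  obtain ⟨C, T0, hC, hT0, hX⟩ := xx_all
  refine ⟨C, T0, hC, hT0, fun T hT Z hZ κ v => ?_⟩
  have hT1 : 0 < T := by linarith
  obtain ⟨l, hl⟩ : ∃ l : ℝ, l = Real.log (T / (2 * Real.pi)) := ⟨_, rfl⟩
  rw [← hl]
  have hconj : ∀ r : ℝ, (starRingEnd ℂ) (cexp ((r : ℂ) * I)) = cexp (((-r : ℝ) : ℂ) * I) := by
    intro r
    rw [← Complex.exp_conj, map_mul, Complex.conj_I, Complex.conj_ofReal]
    congr 1
    push_cast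
    ring
  have hW : ‖ZZ Z κ (-v - l) T‖ = ‖-XX (1 / 2 + (T : ℂ) * I) *
      (starRingEnd ℂ) (ZZ Z κ (-v - l) T)‖ := by
    rw [norm_mul, norm_neg, H345.norm_XX_half, one_mul, Complex.norm_conj]
  rw [hW]
  refine (abs_norm_sub_norm_le _ _).trans ?_
  have e : ZZ Z κ v T - -XX (1 / 2 + (T : ℂ) * I) * (starRingEnd ℂ) (ZZ Z κ (-v - l) T) =
      ∑ t ∈ Z, -(XX (1 / 2 + (t : ℂ) * I) -
        XX (1 / 2 + (T : ℂ) * I) * cexp ((((t - T) * l : ℝ) : ℂ) * I)) *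
        (starRingEnd ℂ) (aa t) * ((Real.exp (-(κ * (t - T) ^ 2)) : ℝ) : ℂ) *
          cexp ((((t - T) * v : ℝ) : ℂ) * I) := by
    unfold ZZ
    rw [map_sum, Finset.mul_sum, ← Finset.sum_sub_distrib]
    refine Finset.sum_congr rfl fun t ht => ?_
    rw [map_mul, map_mul, hconj, Complex.conj_ofReal]
    have h1 : cexp (((-((t - T) * (-v - l)) : ℝ) : ℂ) * I) =
        cexp ((((t - T) * l : ℝ) : ℂ) * I) * cexp ((((t - T) * v : ℝ) : ℂ) * I) := by
      rw [← Complex.exp_add]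
      congr 1
      push_cast
      ring
    rw [h1]
    have h2 := h t (hZ t ht)
    calc aa t * ((Real.exp (-(κ * (t - T) ^ 2)) : ℝ) : ℂ) * cexp ((((t - T) * v : ℝ) : ℂ) * I) -
        -XX (1 / 2 + (T : ℂ) * I) * ((starRingEnd ℂ) (aa t) *
          ((Real.exp (-(κ * (t - T) ^ 2)) : ℝ) : ℂ) *
          (cexp ((((t - T) * l : ℝ) : ℂ) * I) * cexp ((((t - T) * v : ℝ) : ℂ) * I)))
        = (-(XX (1 / 2 + (t : ℂ) * I)) * (starRingEnd ℂ) (aa t)) *
          ((Real.exp (-(κ * (t - T) ^ 2)) : ℝ) : ℂ) * cexp ((((t - T) * v : ℝ) : ℂ) * I) -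
        -XX (1 / 2 + (T : ℂ) * I) * ((starRingEnd ℂ) (aa t) *
          ((Real.exp (-(κ * (t - T) ^ 2)) : ℝ) : ℂ) *
          (cexp ((((t - T) * l : ℝ) : ℂ) * I) * cexp ((((t - T) * v : ℝ) : ℂ) * I))) := by
          rw [← h2]
      _ = _ := by ring
  rw [e]
  refine (norm_sum_le _ _).trans ?_
  rw [Finset.mul_sum]
  refine Finset.sum_le_sum fun t _ => ?_
  have h3 := hX T hT (t - T)
  rw [← hl, add_sub_cancel] at h3
  rw [norm_mul, norm_mul, norm_mul, norm_neg, Complex.norm_conj, Complex.norm_exp_ofReal_mul_I,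
    mul_one, Complex.norm_real, Real.norm_of_nonneg (Real.exp_pos _).le]
  calc ‖XX (1 / 2 + (t : ℂ) * I) -
      XX (1 / 2 + (T : ℂ) * I) * cexp ((((t - T) * l : ℝ) : ℂ) * I)‖ * ‖aa t‖ *
        Real.exp (-(κ * (t - T) ^ 2))
      ≤ (C / T * (1 + (t - T) ^ 2)) * ‖aa t‖ * Real.exp (-(κ * (t - T) ^ 2)) := by gcongr
    _ = _ := by ring

end Pool.Agent.Q68.AL
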